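import Mathlib
import Pool.Agent.Q288.MZ.Lead

set_option autoImplicit false

/-!
MP_80d0cf_nt. The asymptotics of the moments of `ζ` and the points at which `ζ(1/2 + it)` lies on few lines through
the origin.
-/

open Filter Topology Set MeasureTheory

namespace Pool.Agent.Results.MP_80d0cf_nt.FewLines

/-- The value `ζ(1/2 + it)`. -/
noncomputable def z (t : ℝ) : ℂ := riemannZeta (1 / 2 + t * Complex.I)

/-- The heights `t > 100` at which `ζ(1/2 + it)` is a nonzero point of one of the `N` lines `u e^{πij/N} ℝ`. -/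
def Pts (u : ℂ) (N : ℕ) : Set ℝ :=
  {t | 100 < t ∧ ∃ (j : ℕ) (r : ℝ), r ≠ 0 ∧ z t = r * (u * Complex.exp (Real.pi * Complex.I * j / N))}

/-- The moment `m_{2k}(T)`. -/
noncomputable def m (k : ℕ) (T : ℝ) : ℝ := T⁻¹ * ∫ t in (0 : ℝ)..T, ‖z t‖ ^ (2 * k)

/-- The discrete moment: `(2π/N)` times the sum of `|ζ(1/2 + it)|^{2k}` over the heights `t ≤ T` in `Pts u N`,
divided by `T log T`. -/
noncomputable def D (k N : ℕ) (u : ℂ) (T : ℝ) : ℝ :=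
  T⁻¹ * (2 * Real.pi / N * ∑ᶠ t ∈ Pts u N ∩ Iic T, ‖z t‖ ^ (2 * k)) / Real.log T

/-- The constant for the sixth moment. -/
noncomputable def γ6 : ℝ := 42 / (Nat.factorial 9 : ℝ) *
  ∏' p : Nat.Primes, ((1 - (p : ℝ)⁻¹) ^ 4 * (1 + 4 * (p : ℝ)⁻¹ + (p : ℝ)⁻¹ ^ 2))

/-- The constant for the eighth moment. -/
noncomputable def γ8 : ℝ := 24024 / (Nat.factorial 16 : ℝ) *
  ∏' p : Nat.Primes, ((1 - (p : ℝ)⁻¹) ^ 9 *
    (1 + 9 * (p : ℝ)⁻¹ + 9 * (p : ℝ)⁻¹ ^ 2 + (p : ℝ)⁻¹ ^ 3))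

lemma few {u : ℂ} {k N : ℕ} (hu : u ≠ 0) (hk : 1 ≤ k) (hN : 1 ≤ N) (hkN : k ≤ N + 1) (c : ℝ) :
    Tendsto (fun T => m k T / Real.log T ^ (k ^ 2)) atTop (𝓝 c) ↔
      Tendsto (fun T => D k N u T / Real.log T ^ (k ^ 2)) atTop (𝓝 c) := by
  have h := Pool.Agent.Q288.MZ.few_lines hu hk hN hkN c
  have e1 : (fun T : ℝ => (1 / T * ∫ t in (0 : ℝ)..T, ‖Pool.Agent.Q288.MZ.z t‖ ^ (2 * k)) /
      Real.log T ^ (k ^ 2)) = fun T => m k T / Real.log T ^ (k ^ 2) := by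
    funext T
    rw [one_div]
    rfl
  have e2 : (fun T : ℝ => (1 / T * (2 * Real.pi / N * ∑ᶠ t ∈ Pool.Agent.Q288.MZ.Pts u N ∩ Iic T,
      ‖Pool.Agent.Q288.MZ.z t‖ ^ (2 * k))) / Real.log T ^ (k ^ 2 + 1)) =
      fun T => D k N u T / Real.log T ^ (k ^ 2) := by
    funext T
    rw [one_div, pow_succ', div_mul_eq_div_div]
    rfl
  rw [e1, e2] at h
  exact h

theorem result :
    -- the sums are finite
    (∀ (u : ℂ) (N : ℕ) (T : ℝ), u ≠ 0 → 1 ≤ N → (Pts u N ∩ Iic T).Finite) ∧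
    -- each order: the limits
    (∀ (u : ℂ) (k N : ℕ) (c : ℝ), u ≠ 0 → 1 ≤ k → 1 ≤ N → k ≤ N + 1 →
      (Tendsto (fun T => m k T / Real.log T ^ (k ^ 2)) atTop (𝓝 c) ↔
        Tendsto (fun T => D k N u T / Real.log T ^ (k ^ 2)) atTop (𝓝 c))) ∧
    -- Q1
    (∀ u : ℕ → ℂ, (∀ k, u k ≠ 0) →
      ((∀ k : ℕ, 3 ≤ k → ∃ γ : ℝ, 0 < γ ∧ Tendsto (fun T => m k T / (γ * Real.log T ^ (k ^ 2))) atTop (𝓝 1)) ↔
        ∀ k : ℕ, 3 ≤ k → ∃ γ : ℝ, 0 < γ ∧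
          Tendsto (fun T => D k (k - 1) (u k) T / (γ * Real.log T ^ (k ^ 2))) atTop (𝓝 1))) ∧
    -- Q2: the sixth moment, two perpendicular lines, the eighth moment, three lines
    (∀ u : ℂ, u ≠ 0 →
      (Tendsto (fun T => m 3 T / (γ6 * Real.log T ^ 9)) atTop (𝓝 1) ↔
        Tendsto (fun T => D 3 2 u T / (γ6 * Real.log T ^ 9)) atTop (𝓝 1)) ∧
      (Tendsto (fun T => m 4 T / (γ8 * Real.log T ^ 16)) atTop (𝓝 1) ↔
        Tendsto (fun T => D 4 3 u T / (γ8 * Real.log T ^ 16)) atTop (𝓝 1))) := by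
  refine ⟨fun u N T hu hN => Pool.Agent.Q288.MZ.pts_finite hu hN T,
    fun u k N c hu hk hN hkN => few hu hk hN hkN c, fun u hu => ?_, fun u hu => ⟨?_, ?_⟩⟩
  · refine forall_congr' fun k => imp_congr_right fun hk => exists_congr fun γ => and_congr_right fun _ => ?_
    exact Pool.Agent.Q288.MZ.const_iff γ (few (hu k) (by omega) (by omega) (by omega) γ)
  · exact Pool.Agent.Q288.MZ.const_iff (F := m 3) (G := D 3 2 u) γ6 (L₁ := fun T => Real.log T ^ 9)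
      (L₂ := fun T => Real.log T ^ 9) (few (k := 3) (N := 2) hu (by norm_num) (by norm_num) (by norm_num) γ6)
  · exact Pool.Agent.Q288.MZ.const_iff (F := m 4) (G := D 4 3 u) γ8 (L₁ := fun T => Real.log T ^ 16)
      (L₂ := fun T => Real.log T ^ 16) (few (k := 4) (N := 3) hu (by norm_num) (by norm_num) (by norm_num) γ8)

end Pool.Agent.Results.MP_80d0cf_nt.FewLines
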