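import Mathlib
import Pool.Agent.Q85.Mom.Shift

set_option autoImplicit false

/-!
# The high moments live on plateaus of length about `2/log T`

For every real `β ≥ 1` the points `1/2 + it` such that `|ζ|` is at most `ε |ζ(1/2+it)|` somewhere
within `δ/log T` carry at most the share `2 (δ (1/2 + C/log T)/(1-ε))^β` of the `β`-th moment.
-/

open Filter Topology Set MeasureTheory

namespace Pool.Agent.Results.MP_80d0cf_nt.LargeValuesPersist

open Pool.Agent.Q85.Mom

/-- window averages -/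
lemma win_le {g : ℝ → ℝ} (hg : Continuous g) (hg0 : ∀ t, 0 ≤ g t) {a b u v : ℝ} (hab : a ≤ b)
    (hvu : v ≤ u) :
    ∫ t in a..b, (∫ r in v..u, g (t + r)) ≤ (u - v) * ∫ t in (a + v)..(b + u), g t := by
  have hcont2 : Continuous (Function.uncurry fun t r : ℝ => g (t + r)) := by
    have : Continuous fun x : ℝ × ℝ => g (x.1 + x.2) :=
      hg.comp (continuous_fst.add continuous_snd)
    exact this
  have h4 : ∫ t in a..b, (∫ r in v..u, g (t + r)) = ∫ r in v..u, (∫ t in a..b, g (t + r)) := by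
    apply intervalIntegral_intervalIntegral_swap
    apply (hcont2.integrableOn_Icc (a := (min a b, min v u)) (b := (max a b, max v u))).mono_set
    rintro ⟨x, y⟩ ⟨hx, hy⟩
    exact ⟨⟨hx.1.le, hy.1.le⟩, ⟨hx.2, hy.2⟩⟩
  have h5 : ∫ r in v..u, (∫ t in a..b, g (t + r)) ≤
      ∫ r in v..u, (∫ t in (a + v)..(b + u), g t) := by
    apply intervalIntegral.integral_mono_on hvu
    · apply Continuous.intervalIntegrable
      have hcont3 : Continuous (Function.uncurry fun r t : ℝ => g (t + r)) := by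
        have : Continuous fun x : ℝ × ℝ => g (x.2 + x.1) :=
          hg.comp (continuous_snd.add continuous_fst)
        exact this
      exact intervalIntegral.continuous_parametric_intervalIntegral_of_continuous' hcont3 a b
    · exact continuous_const.intervalIntegrable _ _
    · intro r hr
      rw [intervalIntegral.integral_comp_add_right (fun t => g t)]
      apply intervalIntegral.integral_mono_interval (by linarith [hr.1]) (by linarith)
        (by linarith [hr.2])
      · exact Filter.Eventually.of_forall fun t => hg0 t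
      · exact hg.intervalIntegrable _ _
  rw [intervalIntegral.integral_const, smul_eq_mul] at h5
  rw [h4]
  exact h5

/-- the oscillation within `h` -/
lemma osc_le {f f' : ℝ → ℂ} {p : ℝ} (hp : 1 ≤ p) (hf : ∀ t, HasDerivAt f (f' t) t)
    (hc : Continuous f') {h t u : ℝ} (hu : |u| ≤ h) :
    ‖f (t + u) - f t‖ ^ p ≤ h ^ (p - 1) * ∫ r in (-h)..h, ‖f' (t + r)‖ ^ p := by
  have hp0 : 0 < p := by linarith
  have hh : 0 ≤ h := (abs_nonneg u).trans hu
  have huu := abs_le.1 hu
  have i2 : Continuous fun t => ‖f' t‖ ^ p := cont_pow hp0.le hc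
  have e : ∫ r in (-h)..h, ‖f' (t + r)‖ ^ p = ∫ r in (t + -h)..(t + h), ‖f' r‖ ^ p := by
    rw [intervalIntegral.integral_comp_add_left (fun r => ‖f' r‖ ^ p)]
  rw [e]
  have key : ∀ x y : ℝ, x ≤ y → y - x ≤ h → t + -h ≤ x → y ≤ t + h →
      ‖f y - f x‖ ^ p ≤ h ^ (p - 1) * ∫ r in (t + -h)..(t + h), ‖f' r‖ ^ p := by
    intro x y hxy hyx hx hy
    refine (diff_pow hp hf hc hxy).trans ?_
    apply mul_le_mul
    · exact Real.rpow_le_rpow (by linarith) hyx (by linarith)
    · apply intervalIntegral.integral_mono_interval hx hxy hy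
      · exact Filter.Eventually.of_forall fun t => by positivity
      · exact i2.intervalIntegrable _ _
    · exact int_nonneg hxy f'
    · positivity
  rcases le_total 0 u with h1 | h1
  · exact key t (t + u) (by linarith) (by linarith) (by linarith) (by linarith)
  · rw [norm_sub_rev]
    exact key (t + u) t (by linarith) (by linarith) (by linarith) (by linarith)

theorem result : ∃ C T₀ : ℝ, 0 < C ∧ ∀ (β T a b δ ε : ℝ) (E : Set ℝ), 1 ≤ β → T₀ ≤ T →
    T + 1 ≤ a → a + C ^ β ≤ b → b + 1 ≤ 8 * T → 0 ≤ δ → δ ≤ Real.log T → 0 ≤ ε → ε < 1 →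
    MeasurableSet E → E ⊆ Ioc a b →
    (∀ t ∈ E, ∃ u : ℝ, |u| ≤ δ / Real.log T ∧ ‖riemannZeta (1 / 2 + Complex.I * (t + u))‖ ≤
      ε * ‖riemannZeta (1 / 2 + Complex.I * t)‖) →
    ∫ t in E, ‖riemannZeta (1 / 2 + Complex.I * t)‖ ^ β ≤
      2 * (δ * (1 / 2 + C / Real.log T) / (1 - ε)) ^ β *
        ∫ t in (a - 2 * Real.log T)..(b + 2 * Real.log T),
          ‖riemannZeta (1 / 2 + Complex.I * t)‖ ^ β := by
  obtain ⟨C, T₀, hC, hT₀, hB⟩ := blk
  refine ⟨C, T₀, by linarith, ?_⟩
  intro β T a b δ ε E hβ hT ha hab hb hδ hδT hε hε1 hE hEs hEz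
  have hT3 : 3 ≤ T := hT₀.trans hT
  set ℓ : ℝ := Real.log T with hℓ
  have hℓ1 : 1 ≤ ℓ := by
    have h1 : Real.log (Real.exp 1) ≤ Real.log T := by
      apply Real.log_le_log (Real.exp_pos _)
      have := Real.exp_one_lt_d9
      linarith
    rwa [Real.log_exp] at h1
  have hℓ0 : 0 < ℓ := by linarith
  have hβ0 : 0 < β := by linarith
  have hCp : 0 < C ^ β := by positivity
  have hab' : a ≤ b := by linarith
  set h : ℝ := δ / ℓ with hh
  have hh0 : 0 ≤ h := by positivity
  have hh1 : h ≤ 1 := (div_le_one hℓ0).2 hδT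
  have hz : ∀ t : ℝ, riemannZeta (1 / 2 + Complex.I * t) = z t := by
    intro t
    unfold z
    rw [mul_comm]
  have hz' : ∀ t u : ℝ, riemannZeta (1 / 2 + Complex.I * (t + u)) = z (t + u) := by
    intro t u
    rw [← hz]
    push_cast
    rfl
  obtain ⟨hn1, -, h1, -⟩ := hB β T (a - 1) (b + 1) (ℓ / 2) hβ hT (by linarith)
    (by linarith) (by linarith) (by linarith) (by linarith)
  rw [show ℓ - ℓ / 2 = ℓ / 2 by ring, max_self] at h1
  set lam : ℝ := ℓ / 2 with hlam
  set q : ℝ := lam + C with hq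
  have hq0 : 0 < q := by positivity
  set N := nrm β (a - 2 * ℓ) (b + 2 * ℓ) z with hN
  have hmono : nrm β (a - 1 - ℓ) (b + 1 + ℓ) z ≤ N :=
    nrm_interval hβ0 (by linarith) (by linarith) (by linarith) z_cont
  have hN0 : 0 < N := by linarith
  have hNp : ∫ t in (a - 2 * ℓ)..(b + 2 * ℓ), ‖z t‖ ^ β = N ^ β := (nrm_pow hβ0 (by linarith) z).symm
  simp only [hz]
  rw [hNp]
  simp only [hz, hz'] at hEz
  -- pointwise
  set A : ℝ → ℝ := fun t => ∫ r in (-h)..h, ‖ff1 lam (t + r)‖ ^ β with hA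
  have i2 : Continuous fun t => ‖ff1 lam t‖ ^ β := cont_pow hβ0.le (ff1_cont lam)
  have hAc : Continuous A := by
    have hcont2 : Continuous (Function.uncurry fun t r : ℝ => ‖ff1 lam (t + r)‖ ^ β) := by
      have : Continuous fun x : ℝ × ℝ => ‖ff1 lam (x.1 + x.2)‖ ^ β :=
        i2.comp (continuous_fst.add continuous_snd)
      exact this
    exact intervalIntegral.continuous_parametric_intervalIntegral_of_continuous' hcont2 (-h) h
  have hA0 : ∀ t, 0 ≤ A t := fun t =>
    intervalIntegral.integral_nonneg (by linarith) fun r _ => by positivity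
  set κ : ℝ := h ^ (β - 1) * ((1 - ε)⁻¹) ^ β with hκ
  have hκ0 : 0 ≤ κ := by
    have : 0 < 1 - ε := by linarith
    positivity
  have hpt : ∀ t ∈ E, ‖z t‖ ^ β ≤ κ * A t := by
    intro t ht
    obtain ⟨u, hu, hzu⟩ := hEz t ht
    have h2 := osc_le hβ (ff_der lam) (ff1_cont lam) (t := t) hu
    have h3 : (1 - ε) * ‖z t‖ ≤ ‖ff lam (t + u) - ff lam t‖ := by
      have h4 := norm_sub_norm_le (ff lam t) (ff lam (t + u))
      rw [norm_ff, norm_ff, norm_sub_rev] at h4
      linarith
    have h5 : 0 < 1 - ε := by linarith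
    have h6 : ‖z t‖ ≤ (1 - ε)⁻¹ * ‖ff lam (t + u) - ff lam t‖ := by
      rw [inv_mul_eq_div, le_div_iff₀ h5]
      linarith
    have h7 := Real.rpow_le_rpow (norm_nonneg _) h6 hβ0.le
    rw [Real.mul_rpow (by positivity) (norm_nonneg _)] at h7
    refine h7.trans ((mul_le_mul_of_nonneg_left h2 (by positivity)).trans (le_of_eq ?_))
    rw [hκ, hA]
    ring
  have hAi : IntegrableOn A (Ioc a b) := (hAc.integrableOn_Icc).mono_set Ioc_subset_Icc_self
  have h2 : ∫ t in E, ‖z t‖ ^ β ≤ ∫ t in E, κ * A t := by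
    apply setIntegral_mono_on _ ((hAi.mono_set hEs).const_mul _) hE hpt
    have h3 : Continuous fun t : ℝ => ‖z t‖ ^ β := cont_pow hβ0.le z_cont
    exact (h3.integrableOn_Icc).mono_set (hEs.trans Ioc_subset_Icc_self)
  have h3 : ∫ t in E, A t ≤ ∫ t in a..b, A t := by
    rw [intervalIntegral.integral_of_le hab']
    apply setIntegral_mono_set hAi (Filter.Eventually.of_forall fun t => hA0 t)
    exact hEs.eventuallyLE
  rw [integral_const_mul] at h2
  have h4 : ∫ t in a..b, A t ≤ 2 * h * (q * N) ^ β := by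
    have h5 := win_le i2 (fun t => by positivity) hab' (u := h) (v := -h) (by linarith)
    have h6 : ∫ t in (a + -h)..(b + h), ‖ff1 lam t‖ ^ β ≤ (q * N) ^ β := by
      rw [← nrm_pow hβ0 (by linarith) (ff1 lam)]
      apply Real.rpow_le_rpow (nrm_nonneg (by linarith) _) _ hβ0.le
      refine (nrm_interval hβ0 (by linarith) (by linarith) (by linarith) (ff1_cont lam) :
        nrm β (a + -h) (b + h) (ff1 lam) ≤ nrm β (a - 1) (b + 1) (ff1 lam)).trans ?_
      rw [nrm_ff1]
      exact h1.trans (mul_le_mul_of_nonneg_left hmono hq0.le)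
    refine h5.trans ?_
    have e : h - -h = 2 * h := by ring
    rw [e]
    exact mul_le_mul_of_nonneg_left h6 (by positivity)
  refine h2.trans ((mul_le_mul_of_nonneg_left (h3.trans h4) hκ0).trans (le_of_eq ?_))
  have h5 : 0 < 1 - ε := by linarith
  rcases hh0.eq_or_lt with h0 | h0
  · have hδ0 : δ = 0 := by
      have := h0.symm
      rw [hh, div_eq_zero_iff] at this
      rcases this with h6 | h6
      · exact h6
      · exact absurd h6 hℓ0.ne'
    rw [← h0, hδ0, zero_mul, zero_div, Real.zero_rpow hβ0.ne']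
    ring
  · have e1 : δ * (1 / 2 + C / ℓ) / (1 - ε) = h * q * (1 - ε)⁻¹ := by
      rw [hh, hq, hlam]
      field_simp
    have e2 : (h * q * (1 - ε)⁻¹) ^ β = h ^ β * q ^ β * ((1 - ε)⁻¹) ^ β := by
      rw [Real.mul_rpow (by positivity) (by positivity), Real.mul_rpow h0.le hq0.le]
    have e3 : (q * N) ^ β = q ^ β * N ^ β := Real.mul_rpow hq0.le hN0.le
    rw [e1, e2, e3, hκ, Real.rpow_sub h0, Real.rpow_one]
    field_simp

end Pool.Agent.Results.MP_80d0cf_nt.LargeValuesPersist
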