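import Pool.Agent.Q231.VT.Crit
import Pool.Agent.Q231.VT.Muntz
import Pool.Agent.W188.Mom.B4

/-!
# The moments on the critical line from the moments on the lines `Re s = 1/2 + a / log T`

For `k ≥ 1` let `G_k(a, T)` be the `2k`-th moment of zeta on the line `Re s = 1/2 + a / log T`, divided by
`T (log T)^(k²)`. Let `S ⊆ [0, ∞)` be a set with `∑_{a ∈ S} 1 / (1 + a) = ∞`, for instance an infinite bounded set, or
`{1, 2, 3, ...}`. If `G_k(a, T)` has a limit for every `a ∈ S`, then it has a limit `g(a)` for all real `a`, and the moment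
on the critical line is asymptotic to `g(0) (log T)^(k²)`, with `g(0) > 0`.

Proof. `G_k(a, T) = Q_k(-ia, T)` for an entire function `Q_k(·, T)` (near compact sets, for large `T`), the shifted moment.
A moment on a line `1/2 + a / log T` bounds the one on the critical line (`Q85.Mom.line0`), which bounds those on all lines
at distance `O(1 / log T)` (`Q85.Mom.line`); so the functions are bounded on discs. Limits along ultrafilters are
entire, bounded in a half-plane, and therefore determined by their values on `S` (a Müntz type theorem).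
-/

set_option autoImplicit false

open Complex Set Filter Topology MeasureTheory

namespace Pool.Agent.Results.MP_80d0cf_nt.LimitsOffTheLine

/-- the moment `m_{2k}(T)` of the problem -/
noncomputable def m (k : ℕ) (T : ℝ) : ℝ := T⁻¹ * ∫ t in (0 : ℝ)..T, ‖riemannZeta (1 / 2 + t * I)‖ ^ (2 * k)

/-- the `2k`-th moment on the line `Re s = 1/2 + a / log T`, divided by `(log T)^(k²)` -/
noncomputable def G (k : ℕ) (a T : ℝ) : ℝ :=
  (T⁻¹ * ∫ t in (0 : ℝ)..T, ‖riemannZeta (1 / 2 + a / Real.log T + t * I)‖ ^ (2 * k)) / Real.log T ^ (k ^ 2)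

/-- `g` is the restriction to the real line of an entire function `h` with `|h(z)| ≤ K e^(2k max(-Re z, 0))`. -/
def Regular (k : ℕ) (g : ℝ → ℝ) : Prop :=
  ∃ h : ℂ → ℂ, Differentiable ℂ h ∧ (∃ K : ℝ, ∀ z : ℂ, ‖h z‖ ≤ K * Real.exp (2 * k * max (-z.re) 0)) ∧
    ∀ a : ℝ, h a = g a

section proofs

open Pool.Agent.Q231 Pool.Agent.Q85.Mom

/-- the same class in the variable `α = -ia` -/
def Reg (k : ℕ) (c : ℂ → ℂ) : Prop :=
  Differentiable ℂ c ∧ ∃ K : ℝ, ∀ α : ℂ, ‖c α‖ ≤ K * Real.exp (2 * k * max α.im 0)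

lemma G_eq (k : ℕ) (a T : ℝ) : VT.Q k (-I * a) T = (G k a T : ℂ) := by
  have e : ∀ t : ℝ, riemannZeta (1 / 2 + I * (-I * a) / Real.log T + I * t) ^ k *
      riemannZeta (1 / 2 + I * (-I * a) / Real.log T - I * t) ^ k =
        ((‖riemannZeta (1 / 2 + a / Real.log T + t * I)‖ ^ (2 * k) : ℝ) : ℂ) := by
    intro t
    have e1 : (1 / 2 + I * (-I * a) / Real.log T + I * t : ℂ) = 1 / 2 + a / Real.log T + t * I := by
      linear_combination (-(a / Real.log T : ℂ)) * I_mul_I
    have e2 : (1 / 2 + I * (-I * a) / Real.log T - I * t : ℂ) =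
        (starRingEnd ℂ) (1 / 2 + a / Real.log T + t * I) := by
      rw [map_add, map_add, map_mul, conj_I, Complex.conj_ofReal, map_div₀, map_div₀, Complex.conj_ofReal,
        Complex.conj_ofReal, map_one, map_ofNat]
      linear_combination (-(a / Real.log T : ℂ)) * I_mul_I
    rw [e1, e2, riemannZeta_conj, ← mul_pow, Complex.mul_conj, Complex.normSq_eq_norm_sq, ← Complex.ofReal_pow,
      ← pow_mul]
  unfold VT.Q G
  simp only [e]
  rw [intervalIntegral.integral_ofReal]
  push_cast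
  ring

lemma nonempty_of {S : Set ℝ} (hdiv : ¬ Summable fun a : S => 1 / (1 + (a : ℝ))) : S.Nonempty := by
  rw [nonempty_iff_ne_empty]
  rintro rfl
  exact hdiv (summable_of_hasFiniteSupport (Set.toFinite _))

lemma MB_of_lim {k : ℕ} (hk : 1 ≤ k) {a w : ℝ} (ha : 0 ≤ a) (h : Tendsto (fun T => G k a T) atTop (𝓝 w)) :
    ∃ B : ℝ, VT.MB k B := by
  obtain ⟨T₁, hT₁⟩ := eventually_atTop.1 ((h.eventually_lt_const (show w < w + 1 by linarith)).and
    (eventually_ge_atTop (3 : ℝ)))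
  refine VT.MB_of_line (a := a) (B₀ := w + 1) (T₁ := T₁) hk ha fun T hT => ?_
  obtain ⟨h1, h2⟩ := hT₁ T hT
  have hT0 : 0 < T := by linarith
  have hlog : 0 < Real.log T := Real.log_pos (by linarith)
  unfold G at h1
  rw [div_lt_iff₀ (by positivity), inv_mul_lt_iff₀ hT0] at h1
  have e : ∫ t in (0 : ℝ)..T, ‖zx (a / Real.log T) t‖ ^ (2 * k) =
      ∫ t in (0 : ℝ)..T, ‖riemannZeta (1 / 2 + a / Real.log T + t * I)‖ ^ (2 * k) := by
    refine intervalIntegral.integral_congr fun t _ => ?_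
    unfold zx
    push_cast
    rfl
  rw [e]
  nlinarith

lemma reg_uniq {k : ℕ} {S : Set ℝ} (hS : ∀ a ∈ S, 0 ≤ a) (hdiv : ¬ Summable fun a : S => 1 / (1 + (a : ℝ)))
    {g₁ g₂ : ℂ → ℂ} (h1 : Reg k g₁) (h2 : Reg k g₂) (h : ∀ a ∈ S, g₁ (-I * a) = g₂ (-I * a)) : g₁ = g₂ := by
  obtain ⟨K₁, hK₁⟩ := h1.2
  obtain ⟨K₂, hK₂⟩ := h2.2
  have hd1 := h1.1
  have hd2 := h2.1
  have key := VT.muntz (f := fun z => g₁ (-I * z) - g₂ (-I * z)) (M := K₁ + K₂)
    ((hd1.comp (by fun_prop)).sub (hd2.comp (by fun_prop))) ?_ hS hdiv ?_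
  · funext α
    have h3 := key (I * α)
    have e : -I * (I * α) = α := by linear_combination (-α) * I_mul_I
    simp only [e] at h3
    exact sub_eq_zero.1 h3
  · intro z hz
    have e1 : (-I * z).im = -z.re := by simp
    have h3 := hK₁ (-I * z)
    have h4 := hK₂ (-I * z)
    rw [e1, max_eq_right (by linarith), mul_zero, Real.exp_zero, mul_one] at h3 h4
    refine (norm_sub_le _ _).trans ?_
    linarith
  · intro a ha
    simp only [h a ha, sub_self]

lemma core {k : ℕ} (hk : 1 ≤ k) {S : Set ℝ} (hS : ∀ a ∈ S, 0 ≤ a)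
    (hdiv : ¬ Summable fun a : S => 1 / (1 + (a : ℝ)))
    (h : ∀ a ∈ S, ∃ w : ℝ, Tendsto (fun T => G k a T) atTop (𝓝 w)) :
    ∃ c : ℂ → ℂ, Reg k c ∧ TendstoLocallyUniformly (fun T α => VT.Q k α T) c atTop := by
  obtain ⟨a₀, ha₀⟩ := nonempty_of hdiv
  obtain ⟨w, hw⟩ := h a₀ ha₀
  obtain ⟨B, hB⟩ := MB_of_lim hk (hS a₀ ha₀) hw
  have hb := VT.Q_bdd hk hB
  obtain ⟨c, hc, hlim⟩ := VT.vitali_uniq (f := fun T α => VT.Q k α T) hb (A := (fun a : ℝ => -I * (a : ℂ)) '' S)
    (Reg k) (fun U hU g hg => ⟨VT.diff_lim hb hU hg, VT.Q_growth hk hB hU hg⟩)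
    (fun g₁ g₂ h1 h2 h3 => reg_uniq hS hdiv h1 h2 fun a ha => h3 _ (mem_image_of_mem _ ha)) (by
      rintro _ ⟨a, ha, rfl⟩
      obtain ⟨w, hw⟩ := h a ha
      refine ⟨(w : ℂ), ?_⟩
      simp only [G_eq]
      exact (Complex.continuous_ofReal.tendsto w).comp hw)
  exact ⟨c, hc, VT.loc_unif hb hlim⟩

/-- the limit is positive -/
lemma pos_lim {k : ℕ} (hk : 1 ≤ k) {w : ℝ} (h : Tendsto (fun T => G k 0 T) atTop (𝓝 w)) : 0 < w := by
  have hkR : (1 : ℝ) ≤ k := by exact_mod_cast hk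
  obtain ⟨c, hc, hlow⟩ := Pool.Agent.W188.Mom.lower (p := ((2 * k : ℕ) : ℝ)) (by push_cast; linarith)
  have ht : Tendsto (fun T : ℝ => T / 2) atTop atTop := tendsto_id.atTop_div_const (by norm_num)
  have h1 : ∀ᶠ T : ℝ in atTop, c / 2 * (1 / 2) ^ (k ^ 2) ≤ G k 0 T := by
    filter_upwards [ht.eventually hlow, eventually_ge_atTop (4 : ℝ)] with T hT hT4
    have hT0 : 0 < T := by linarith
    have hlog : 0 < Real.log T := Real.log_pos (by linarith)
    have e1 : T / 2 + T / 2 = T := by ring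
    have e2 : (((2 * k : ℕ) : ℝ)) ^ 2 / 4 = ((k ^ 2 : ℕ) : ℝ) := by push_cast; ring
    rw [e1, e2, Real.rpow_natCast] at hT
    have e3 : ∫ t in (T / 2)..T, Pool.Agent.W188.Mom.Z t ^ (((2 * k : ℕ)) : ℝ) =
        ∫ t in (T / 2)..T, ‖z t‖ ^ (2 * k) := by
      refine intervalIntegral.integral_congr fun t _ => ?_
      simp only [Real.rpow_natCast]
      rfl
    rw [e3] at hT
    have h3 : ∫ t in (T / 2)..T, ‖z t‖ ^ (2 * k) ≤ ∫ t in (0 : ℝ)..T, ‖z t‖ ^ (2 * k) :=
      VT.mono_int (VT.zk_c k) (fun t => by positivity) (by positivity) (by linarith) le_rfl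
    have h4 : Real.log T / 2 ≤ Real.log (T / 2) := by
      rw [Real.log_div hT0.ne' (by norm_num)]
      have h5 : 2 * Real.log 2 ≤ Real.log T := by
        have := Real.log_le_log (by norm_num) hT4
        rwa [show (4 : ℝ) = 2 ^ 2 by norm_num, Real.log_pow] at this
      linarith
    have h5 : (Real.log T / 2) ^ (k ^ 2) ≤ Real.log (T / 2) ^ (k ^ 2) := pow_le_pow_left₀ (by positivity) h4 _
    have e4 : G k 0 T = (T⁻¹ * ∫ t in (0 : ℝ)..T, ‖z t‖ ^ (2 * k)) / Real.log T ^ (k ^ 2) := by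
      unfold G z
      simp only [Complex.ofReal_zero, zero_div, add_zero]
    rw [e4, le_div_iff₀ (by positivity), inv_mul_eq_div, le_div_iff₀ hT0]
    calc c / 2 * (1 / 2) ^ (k ^ 2) * Real.log T ^ (k ^ 2) * T
        = c * (T / 2 * (Real.log T / 2) ^ (k ^ 2)) := by rw [div_pow, div_pow, one_pow]; ring
      _ ≤ c * (T / 2 * Real.log (T / 2) ^ (k ^ 2)) := by gcongr
      _ ≤ _ := hT.trans h3
  have h2 := ge_of_tendsto h h1
  have : 0 < c / 2 * (1 / 2) ^ (k ^ 2) := by positivity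
  linarith

lemma real_of {k : ℕ} {c : ℂ → ℂ} (hc : ∀ α, Tendsto (fun T => VT.Q k α T) atTop (𝓝 (c α))) (a : ℝ) :
    c (-I * a) = ((c (-I * a)).re : ℂ) ∧ Tendsto (fun T => G k a T) atTop (𝓝 (c (-I * a)).re) := by
  have h1 := hc (-I * a)
  simp only [G_eq] at h1
  have h2 : Tendsto (fun T => G k a T) atTop (𝓝 (c (-I * a)).re) := by
    have := (Complex.continuous_re.tendsto _).comp h1
    exact this
  refine ⟨?_, h2⟩
  exact tendsto_nhds_unique h1 ((Complex.continuous_ofReal.tendsto _).comp h2)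

end proofs

/-- **The moment on the critical line from the moments off the line.** Let `k ≥ 1` and let `S ⊆ [0, ∞)` satisfy
`∑_{a ∈ S} 1 / (1 + a) = ∞`. (1) If the normalised moments `G_k(a, T)` on the lines `Re s = 1/2 + a / log T` have a limit for
every `a ∈ S`, then they converge for all real `a`, locally uniformly, to a function `g` which extends to an entire function
with `|g(z)| ≤ K e^(2k max(-Re z, 0))`, and `m_{2k}(T) ∼ γ (log T)^(k²)` with `γ = g(0) > 0`. (2) If `g` is such a function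
and `G_k(a, T) → g(a)` for all `a ∈ S`, then for all real `a`, and `m_{2k}(T) / (log T)^(k²) → g(0)`. -/
theorem result (k : ℕ) (hk : 1 ≤ k) (S : Set ℝ) (hS : ∀ a ∈ S, 0 ≤ a)
    (hdiv : ¬ Summable fun a : S => 1 / (1 + (a : ℝ))) :
    ((∀ a ∈ S, ∃ w : ℝ, Tendsto (fun T => G k a T) atTop (𝓝 w)) →
      ∃ g : ℝ → ℝ, Regular k g ∧ TendstoLocallyUniformly (fun T a => G k a T) g atTop ∧ 0 < g 0 ∧
        Tendsto (fun T => m k T / (g 0 * Real.log T ^ (k ^ 2))) atTop (𝓝 1)) ∧
    ∀ g : ℝ → ℝ, Regular k g → (∀ a ∈ S, Tendsto (fun T => G k a T) atTop (𝓝 (g a))) →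
      (∀ a : ℝ, Tendsto (fun T => G k a T) atTop (𝓝 (g a))) ∧
        Tendsto (fun T => m k T / Real.log T ^ (k ^ 2)) atTop (𝓝 (g 0)) := by
  have em : ∀ T, G k 0 T = m k T / Real.log T ^ (k ^ 2) := by
    intro T
    unfold G m
    simp only [Complex.ofReal_zero, zero_div, add_zero]
  have pt : ∀ c : ℂ → ℂ, TendstoLocallyUniformly (fun T α => Pool.Agent.Q231.VT.Q k α T) c atTop → ∀ α,
      Tendsto (fun T => Pool.Agent.Q231.VT.Q k α T) atTop (𝓝 (c α)) := fun c h α =>
    (tendstoLocallyUniformlyOn_univ.2 h).tendsto_at (mem_univ α)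
  constructor
  · intro h
    obtain ⟨c, hc, hlu⟩ := core hk hS hdiv h
    have hre := real_of (pt c hlu)
    refine ⟨fun a => (c (-I * a)).re, ⟨fun z => c (-I * z), ?_, ?_, fun a => (hre a).1⟩, ?_, ?_, ?_⟩
    · have hd := hc.1
      exact hd.comp (by fun_prop)
    · obtain ⟨K, hK⟩ := hc.2
      refine ⟨K, fun z => ?_⟩
      have := hK (-I * z)
      have e1 : (-I * z).im = -z.re := by simp
      rwa [e1] at this
    · rw [Metric.tendstoLocallyUniformly_iff] at hlu ⊢
      intro ε hε a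
      obtain ⟨t, ht, h1⟩ := hlu ε hε (-I * a)
      refine ⟨(fun a : ℝ => -I * (a : ℂ)) ⁻¹' t, ?_, ?_⟩
      · exact (show Continuous fun a : ℝ => -I * (a : ℂ) by fun_prop).continuousAt.preimage_mem_nhds ht
      · filter_upwards [h1] with T hT b hb
        have h2 := hT (-I * b) hb
        rw [G_eq, (hre b).1, Complex.dist_eq, ← Complex.ofReal_sub, Complex.norm_real] at h2
        rw [Real.dist_eq]
        exact h2
    · simpa using pos_lim hk (hre 0).2
    · have h0 := (hre 0).2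
      have hp := pos_lim hk h0
      have h1 := h0.div_const (c (-I * ((0 : ℝ) : ℂ))).re
      rw [div_self hp.ne'] at h1
      refine h1.congr fun T => ?_
      rw [em, div_div, mul_comm]
  · rintro g ⟨h', hd, ⟨K, hK⟩, hg⟩ h
    obtain ⟨c, hc, hlu⟩ := core hk hS hdiv fun a ha => ⟨_, h a ha⟩
    have hre := real_of (pt c hlu)
    have hreg : Reg k (fun α => h' (I * α)) := by
      refine ⟨hd.comp (by fun_prop), K, fun α => ?_⟩
      have := hK (I * α)
      have e1 : -(I * α).re = α.im := by simp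
      rwa [e1] at this
    have hcc : c = fun α => h' (I * α) := by
      refine reg_uniq hS hdiv hc hreg fun a ha => ?_
      have e : I * (-I * (a : ℂ)) = a := by linear_combination (-(a : ℂ)) * I_mul_I
      rw [e, hg, (hre a).1]
      congr 1
      exact tendsto_nhds_unique (hre a).2 (h a ha)
    have hall : ∀ a : ℝ, Tendsto (fun T => G k a T) atTop (𝓝 (g a)) := by
      intro a
      have h1 := (hre a).2
      have e : I * (-I * (a : ℂ)) = a := by linear_combination (-(a : ℂ)) * I_mul_I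
      have e2 : c (-I * a) = g a := by
        rw [hcc]
        simp only [e, hg]
      rw [e2, Complex.ofReal_re] at h1
      exact h1
    refine ⟨hall, ?_⟩
    have h1 := hall 0
    simp only [em] at h1
    exact h1

end Pool.Agent.Results.MP_80d0cf_nt.LimitsOffTheLine
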