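import Mathlib
import Pool.Agent.Q85.Mom.ZSum

set_option autoImplicit false

/-!
# The moments of zeta over its maxima between the zeros

For every `k ≥ 1/2` (real): let `γ₀ ≤ γ₁ ≤ … ≤ γₙ` be ordinates in `[a, b] ⊆ [T, 8T]` of zeros on the critical
line and `x_j ∈ [γ_j, γ_{j+1}]` arbitrary points, for example the maxima of `|ζ(1/2+it)|` between consecutive
zeros.  Then `∑ |ζ(1/2+ix_j)|^{2k}` is at most `(k/2) (log T + C)` times the `2k`-th moment over the
interval enlarged by `log T`, with an absolute constant `C`.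
-/

open Filter Topology Set MeasureTheory

namespace Pool.Agent.Results.MP_80d0cf_nt.MaximaBetweenZeros

/-- the value `ζ(1/2 + it)` -/
noncomputable def z (t : ℝ) : ℂ := riemannZeta (1 / 2 + t * Complex.I)

open Pool.Agent.Q85.Mom

theorem result : ∃ C T₀ : ℝ, 0 < C ∧ ∀ (k T a b : ℝ) (n : ℕ) (γ x : ℕ → ℝ), 1 / 2 ≤ k → T₀ ≤ T →
    T ≤ a → a + C ^ (2 * k) ≤ b → b ≤ 8 * T →
    -- zeros in `[a, b]` and points between them
    a ≤ γ 0 → γ n ≤ b → (∀ j ≤ n, z (γ j) = 0) → (∀ j < n, γ j ≤ x j ∧ x j ≤ γ (j + 1)) →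
    ∑ j ∈ Finset.range n, ‖z (x j)‖ ^ (2 * k) ≤
      k / 2 * (Real.log T + C) *
        ∫ t in (a - Real.log T)..(b + Real.log T), ‖z t‖ ^ (2 * k) := by
  obtain ⟨C, T₀, hC, hT₀, hB⟩ := blk
  refine ⟨2 * C, T₀, by linarith, fun k T a b n γ x hk hT ha hab hb h0 hn hz hx => ?_⟩
  have hp : 1 ≤ 2 * k := by linarith
  have hp0 : 0 < 2 * k := by linarith
  have hT3 : 3 ≤ T := hT₀.trans hT
  have hℓ0 : 0 ≤ Real.log T := Real.log_nonneg (by linarith)
  set ℓ : ℝ := Real.log T with hℓ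
  have hCp : C ^ (2 * k) ≤ (2 * C) ^ (2 * k) := Real.rpow_le_rpow (by linarith) (by linarith) hp0.le
  have hCp0 : 0 < C ^ (2 * k) := Real.rpow_pos_of_pos (by linarith) _
  have hab' : a ≤ b := by linarith
  obtain ⟨hn1, -, h1, -⟩ := hB (2 * k) T a b (ℓ / 2) hp hT (by linarith) (by linarith)
    (by linarith) (by linarith) (by linarith)
  rw [show ℓ - ℓ / 2 = ℓ / 2 by ring, max_self] at h1
  set lam : ℝ := ℓ / 2 with hlam
  set n0 := nrm (2 * k) (a - ℓ) (b + ℓ) Pool.Agent.Q85.Mom.z with hn0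
  have hle : ∀ j < n, γ j ≤ γ (j + 1) := fun j hj => (hx j hj).1.trans (hx j hj).2
  have hf0 : ∀ j ≤ n, ff lam (γ j) = 0 := by
    intro j hj
    rw [← norm_eq_zero, norm_ff]
    have := hz j hj
    unfold z at this
    unfold Pool.Agent.Q85.Mom.z
    rw [this, norm_zero]
  have hpeak : ∀ j ∈ Finset.range n, 2 * ‖z (x j)‖ ^ (2 * k) ≤
      2 * k * ∫ t in (γ j)..(γ (j + 1)), ‖ff lam t‖ ^ (2 * k - 1) * ‖ff1 lam t‖ := by
    intro j hj
    have hj' := Finset.mem_range.1 hj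
    have h2 := peak_le hp (ff_der lam) (ff1_cont lam) (hx j hj').1 (hx j hj').2 (hf0 j hj'.le)
      (hf0 (j + 1) hj')
    rw [norm_ff] at h2
    exact h2
  have i2 := cont_mulpow hp (ff_cont lam) (ff1_cont lam)
  have hγ : γ 0 ≤ γ n := by
    have : ∀ m ≤ n, γ 0 ≤ γ m := by
      intro m
      induction m with
      | zero => intro _; exact le_rfl
      | succ m ih => intro hm; exact (ih (by omega)).trans (hle m (by omega))
    exact this n le_rfl
  have hsum : 2 * ∑ j ∈ Finset.range n, ‖z (x j)‖ ^ (2 * k) ≤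
      2 * k * ∫ t in a..b, ‖ff lam t‖ ^ (2 * k - 1) * ‖ff1 lam t‖ := by
    rw [Finset.mul_sum]
    refine (Finset.sum_le_sum hpeak).trans ?_
    rw [← Finset.mul_sum, intervalIntegral.sum_integral_adjacent_intervals
      (fun j _ => i2.intervalIntegrable _ _)]
    apply mul_le_mul_of_nonneg_left _ hp0.le
    apply intervalIntegral.integral_mono_interval h0 hγ hn
    · exact Filter.Eventually.of_forall fun t => by positivity
    · exact i2.intervalIntegrable _ _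
  have h3 := wint_zeta hp hab'
    (nrm_interval hp0 (by linarith) hab' (by linarith) z_cont : nrm (2 * k) a b _ ≤ n0) h1
  have h4 : 2 * k * ∫ t in a..b, ‖ff lam t‖ ^ (2 * k - 1) * ‖ff1 lam t‖ ≤
      2 * k * ((lam + C) * n0 ^ (2 * k)) := mul_le_mul_of_nonneg_left h3 hp0.le
  have h5 : n0 ^ (2 * k) = ∫ t in (a - ℓ)..(b + ℓ), ‖z t‖ ^ (2 * k) := by
    rw [hn0, nrm_pow hp0 (by linarith)]
    rfl
  rw [h5] at h4
  have e : k / 2 * (ℓ + 2 * C) * (∫ t in (a - ℓ)..(b + ℓ), ‖z t‖ ^ (2 * k)) =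
      (2 * k * ((lam + C) * ∫ t in (a - ℓ)..(b + ℓ), ‖z t‖ ^ (2 * k))) / 2 := by
    rw [hlam]; ring
  rw [e]
  linarith

end Pool.Agent.Results.MP_80d0cf_nt.MaximaBetweenZeros
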